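import Mathlib

/-! # Rank bound: a finite connected labelled graph has a spanning tree, so the labels of the
closed paths lie in a subgroup generated by `|E| - |V| + 1` elements.  Written by helper1. -/

namespace H1.SAE

open Finset

variable {V E G : Type*} [Fintype V] [Fintype E] [DecidableEq V] [DecidableEq E] [Group G]

/-- partial spanning trees of every size -/
theorem partial_tree (lab : E → G) (tl hd : E → V) (base : V)
    (conn : ∀ S : Finset V, base ∈ S → (∀ e, tl e ∈ S ↔ hd e ∈ S) → ∀ v, v ∈ S) (n : ℕ) :
    n + 1 ≤ Fintype.card V → ∃ (R : Finset V) (T : Finset E) (g : V → G),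
      R.card = n + 1 ∧ base ∈ R ∧ T.card = n ∧ g base = 1 ∧
      ∀ e ∈ T, tl e ∈ R ∧ hd e ∈ R ∧ g (hd e) = lab e * g (tl e) := by
  induction n with
  | zero =>
    intro _
    exact ⟨{base}, ∅, fun _ => 1, by simp, by simp, by simp, rfl, by simp⟩
  | succ n ih =>
    intro hn
    obtain ⟨R, T, g, hR, hb, hT, hg, hT'⟩ := ih (by omega)
    have hne : ∃ e, ¬ (tl e ∈ R ↔ hd e ∈ R) := by
      by_contra hcon
      push Not at hcon
      have h1 := conn R hb hcon
      have h2 : R = Finset.univ := by
        ext v; simp [h1 v]
      rw [h2, Finset.card_univ] at hR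
      omega
    obtain ⟨e, he⟩ := hne
    have heT : e ∉ T := by
      intro hmem
      obtain ⟨h1, h2, _⟩ := hT' e hmem
      exact he ⟨fun _ => h2, fun _ => h1⟩
    by_cases ht : tl e ∈ R
    · have hh : hd e ∉ R := fun h => he ⟨fun _ => h, fun _ => ht⟩
      refine ⟨insert (hd e) R, insert e T, Function.update g (hd e) (lab e * g (tl e)), ?_, ?_, ?_,
        ?_, ?_⟩
      · rw [Finset.card_insert_of_notMem hh, hR]
      · exact Finset.mem_insert_of_mem hb
      · rw [Finset.card_insert_of_notMem heT, hT]
      · rw [Function.update_of_ne (by rintro h; exact hh (h ▸ hb)), hg]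
      · intro e' he'
        rcases Finset.mem_insert.1 he' with h | h
        · subst h
          refine ⟨Finset.mem_insert_of_mem ht, Finset.mem_insert_self _ _, ?_⟩
          rw [Function.update_self, Function.update_of_ne (by rintro h; exact hh (h ▸ ht))]
        · obtain ⟨h1, h2, h3⟩ := hT' e' h
          refine ⟨Finset.mem_insert_of_mem h1, Finset.mem_insert_of_mem h2, ?_⟩
          rw [Function.update_of_ne (by rintro h; exact hh (h ▸ h2)),
            Function.update_of_ne (by rintro h; exact hh (h ▸ h1)), h3]
    · have hh : hd e ∈ R := by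
        by_contra h
        exact he ⟨fun h' => absurd h' ht, fun h' => absurd h' h⟩
      refine ⟨insert (tl e) R, insert e T, Function.update g (tl e) ((lab e)⁻¹ * g (hd e)), ?_, ?_,
        ?_, ?_, ?_⟩
      · rw [Finset.card_insert_of_notMem ht, hR]
      · exact Finset.mem_insert_of_mem hb
      · rw [Finset.card_insert_of_notMem heT, hT]
      · rw [Function.update_of_ne (by rintro h; exact ht (h ▸ hb)), hg]
      · intro e' he'
        rcases Finset.mem_insert.1 he' with h | h
        · subst h
          refine ⟨Finset.mem_insert_self _ _, Finset.mem_insert_of_mem hh, ?_⟩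
          rw [Function.update_self, Function.update_of_ne (by rintro h; exact ht (h ▸ hh))]
          group
        · obtain ⟨h1, h2, h3⟩ := hT' e' h
          refine ⟨Finset.mem_insert_of_mem h1, Finset.mem_insert_of_mem h2, ?_⟩
          rw [Function.update_of_ne (by rintro h; exact ht (h ▸ h2)),
            Function.update_of_ne (by rintro h; exact ht (h ▸ h1)), h3]

/-- A finite connected graph with edges labelled in a group: there is a finite set `s` of at most
`|E| - |V| + 1` elements and a potential `g` such that every edge element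
`(g (hd e))⁻¹ * lab e * g (tl e)` lies in the subgroup generated by `s`. -/
theorem graph_rank (lab : E → G) (tl hd : E → V) (base : V)
    (conn : ∀ S : Finset V, base ∈ S → (∀ e, tl e ∈ S ↔ hd e ∈ S) → ∀ v, v ∈ S) :
    ∃ (s : Finset G) (g : V → G), s.card + Fintype.card V ≤ Fintype.card E + 1 ∧ g base = 1 ∧
      ∀ e, (g (hd e))⁻¹ * lab e * g (tl e) ∈ Subgroup.closure (s : Set G) := by
  classical
  have hpos : 0 < Fintype.card V := Fintype.card_pos_iff.2 ⟨base⟩
  obtain ⟨R, T, g, hR, hb, hT, hg, hT'⟩ :=
    partial_tree lab tl hd base conn (Fintype.card V - 1) (by omega)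
  refine ⟨(Finset.univ \ T).image (fun e => (g (hd e))⁻¹ * lab e * g (tl e)), g, ?_, hg, ?_⟩
  · have h1 : ((Finset.univ \ T).image (fun e => (g (hd e))⁻¹ * lab e * g (tl e))).card ≤
        (Finset.univ \ T).card := Finset.card_image_le
    have h2 : (Finset.univ \ T).card = Fintype.card E - T.card := by
      rw [Finset.card_sdiff_of_subset (Finset.subset_univ _), Finset.card_univ]
    have h3 : T.card ≤ Fintype.card E := Finset.card_le_univ T
    omega
  · intro e
    by_cases he : e ∈ T
    · obtain ⟨_, _, h3⟩ := hT' e he
      have : (g (hd e))⁻¹ * lab e * g (tl e) = 1 := by rw [h3]; group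
      rw [this]; exact Subgroup.one_mem _
    · apply Subgroup.subset_closure
      simp only [Finset.coe_image, Set.mem_image, Finset.mem_coe, Finset.mem_sdiff,
        Finset.mem_univ, true_and]
      exact ⟨e, he, rfl⟩

end H1.SAE
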