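import Mathlib

/-! # The star inequality by optimal partitions.  Written by helper1. -/

namespace H1.SAE

open Finset

/-- cost of a partition: `∑ (ρ B - lam)` over its blocks -/
noncomputable def cost {V : Type*} [DecidableEq V] (ρ : Finset V → ℝ) (lam : ℝ) {s : Finset V}
    (P : Finpartition s) : ℝ := ∑ B ∈ P.parts, (ρ B - lam)

section basic

variable {V : Type*} [DecidableEq V]

theorem cost_eq (ρ : Finset V → ℝ) (lam : ℝ) {s : Finset V} (P : Finpartition s) :
    cost ρ lam P = ∑ B ∈ P.parts, ρ B - lam * P.parts.card := by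
  unfold cost
  rw [Finset.sum_sub_distrib]
  simp [mul_comm]

theorem cost_change (ρ : Finset V → ℝ) (lam mu : ℝ) {s : Finset V} (P : Finpartition s) :
    cost ρ lam P = cost ρ mu P + (mu - lam) * P.parts.card := by
  rw [cost_eq, cost_eq]; ring

/-- an optimal partition with fewest blocks -/
theorem exists_opt (ρ : Finset V → ℝ) (lam : ℝ) (s : Finset V) :
    ∃ P : Finpartition s, (∀ P' : Finpartition s, cost ρ lam P ≤ cost ρ lam P') ∧
      ∀ P' : Finpartition s, cost ρ lam P' ≤ cost ρ lam P → P.parts.card ≤ P'.parts.card := by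
  classical
  obtain ⟨P0, hP0⟩ := Finite.exists_min (fun P : Finpartition s => cost ρ lam P)
  obtain ⟨P, hP, hmin⟩ := Finset.exists_min_image
    (Finset.univ.filter fun P : Finpartition s => cost ρ lam P ≤ cost ρ lam P0)
    (fun P => P.parts.card) ⟨P0, by simp⟩
  simp only [Finset.mem_filter, Finset.mem_univ, true_and] at hP hmin
  exact ⟨P, fun P' => hP.trans (hP0 P'), fun P' h => hmin P' (h.trans hP)⟩

/-- subadditivity -/
theorem subadd (ρ : Finset V → ℝ) (h0 : ρ ∅ = 0) (hadd : ∀ A B, ρ (A ∪ B) ≤ ρ A + ρ B)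
    (J : Finset (Finset V)) : ρ (J.sup id) ≤ ∑ B ∈ J, ρ B := by
  classical
  induction J using Finset.induction_on with
  | empty => simp [h0]
  | insert a J ha ih =>
    rw [Finset.sup_insert, Finset.sum_insert ha]
    exact (hadd _ _).trans (by simpa using add_le_add_right ih (ρ a))

theorem cost_zero_ge (ρ : Finset V → ℝ) (h0 : ρ ∅ = 0) (hadd : ∀ A B, ρ (A ∪ B) ≤ ρ A + ρ B)
    {s : Finset V} (P : Finpartition s) : ρ s ≤ cost ρ 0 P := by
  have := subadd ρ h0 hadd P.parts
  rw [P.sup_parts] at this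
  simpa [cost] using this

theorem exists_cost_zero (ρ : Finset V → ℝ) (h0 : ρ ∅ = 0) (s : Finset V) :
    ∃ P : Finpartition s, cost ρ 0 P = ρ s := by
  classical
  by_cases hs : s = ∅
  · subst hs
    refine ⟨Finpartition.empty _, ?_⟩
    simp [cost, h0]
  · refine ⟨Finpartition.indiscrete hs, ?_⟩
    simp [cost]

theorem cost_top_ge (ρ : Finset V → ℝ) (L : ℝ) {s : Finset V}
    (hL : ∀ B ⊆ s, B.Nonempty → L ≤ ρ B)
    (P : Finpartition s) : 0 ≤ cost ρ L P := by
  unfold cost
  refine Finset.sum_nonneg fun B hB => ?_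
  have := hL B (P.le hB) (P.nonempty_of_mem_parts hB)
  linarith

theorem exists_cost_top (ρ : Finset V → ℝ) (L : ℝ) (s : Finset V) (h1 : ∀ a ∈ s, ρ {a} = L) :
    ∃ P : Finpartition s, cost ρ L P = 0 := by
  classical
  refine ⟨⊥, ?_⟩
  unfold cost
  refine Finset.sum_eq_zero fun B hB => ?_
  rw [Finpartition.mem_bot_iff] at hB
  obtain ⟨a, ha, rfl⟩ := hB
  rw [h1 a ha]; ring

end basic

section telescope

variable {V : Type*} [DecidableEq V]

/-- both telescoping bounds, for a sequence of optimal partitions at `lam t = t * L / M` -/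
theorem telescope (ρ : Finset V → ℝ) (L : ℝ) (s : Finset V) (h0 : ρ ∅ = 0)
    (hadd : ∀ A B, ρ (A ∪ B) ≤ ρ A + ρ B)
    (hL : ∀ B ⊆ s, B.Nonempty → L ≤ ρ B) (h1 : ∀ a ∈ s, ρ {a} = L)
    (M : ℕ) (hM : 0 < M) (P : ℕ → Finpartition s)
    (hP : ∀ t : ℕ, ∀ P' : Finpartition s, cost ρ (t * (L / M)) (P t) ≤ cost ρ (t * (L / M)) P') :
    ρ s ≤ (L / M) * ∑ t ∈ Finset.range M, ((P (t + 1)).parts.card : ℝ) ∧
    (L / M) * ∑ t ∈ Finset.range M, ((P t).parts.card : ℝ) ≤ ρ s := by
  classical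
  set m : ℕ → ℝ := fun t => cost ρ (t * (L / M)) (P t) with hm
  have hm0 : m 0 = ρ s := by
    apply le_antisymm
    · obtain ⟨P', hP'⟩ := exists_cost_zero ρ h0 s
      have := hP 0 P'
      simp only [Nat.cast_zero, zero_mul] at this
      rw [hP'] at this
      simpa [hm] using this
    · have := cost_zero_ge ρ h0 hadd (P 0)
      simpa [hm] using this
  have hMM : (M : ℝ) * (L / M) = L := by
    have : (M : ℝ) ≠ 0 := by positivity
    field_simp
  have hmM : m M = 0 := by
    apply le_antisymm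
    · obtain ⟨P', hP'⟩ := exists_cost_top ρ L s h1
      have := hP M P'
      rw [hMM, hP'] at this
      simpa [hm, hMM] using this
    · have := cost_top_ge ρ L hL (P M)
      simpa [hm, hMM] using this
  have hstep1 : ∀ t, m t - m (t + 1) ≤ (L / M) * ((P (t + 1)).parts.card : ℝ) := by
    intro t
    have h2 := hP t (P (t + 1))
    have h3 := cost_change ρ (t * (L / M)) (((t + 1 : ℕ) : ℝ) * (L / M)) (P (t + 1))
    have h4 : m (t + 1) = cost ρ (((t + 1 : ℕ) : ℝ) * (L / M)) (P (t + 1)) := rfl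
    have h5 : m t = cost ρ (t * (L / M)) (P t) := rfl
    rw [h3] at h2
    rw [h4, h5]
    push_cast at h2 ⊢
    linarith
  have hstep2 : ∀ t, (L / M) * ((P t).parts.card : ℝ) ≤ m t - m (t + 1) := by
    intro t
    have h2 := hP (t + 1) (P t)
    have h3 := cost_change ρ (((t + 1 : ℕ) : ℝ) * (L / M)) (t * (L / M)) (P t)
    have h4 : m (t + 1) = cost ρ (((t + 1 : ℕ) : ℝ) * (L / M)) (P (t + 1)) := rfl
    have h5 : m t = cost ρ (t * (L / M)) (P t) := rfl
    rw [h3] at h2
    rw [h4, h5]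
    push_cast at h2 ⊢
    linarith
  have hsum : ∑ t ∈ Finset.range M, (m t - m (t + 1)) = ρ s := by
    rw [Finset.sum_range_sub', hm0, hmM, sub_zero]
  constructor
  · rw [Finset.mul_sum, ← hsum]
    exact Finset.sum_le_sum fun t _ => hstep1 t
  · rw [Finset.mul_sum, ← hsum]
    exact Finset.sum_le_sum fun t _ => hstep2 t

end telescope

section merge

variable {V : Type*} [DecidableEq V]

/-- merging a nonempty family of blocks -/
theorem exists_merge {s : Finset V} (P : Finpartition s) (J : Finset (Finset V))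
    (hJ : J ⊆ P.parts) (hne : J.Nonempty) (ρ : Finset V → ℝ) (lam : ℝ) :
    ∃ P' : Finpartition s,
      cost ρ lam P' = cost ρ lam P - ∑ B ∈ J, (ρ B - lam) + (ρ (J.sup id) - lam) ∧
      P'.parts.card + J.card = P.parts.card + 1 := by
  classical
  have hmem : ∀ a, a ∈ J.sup id ↔ ∃ B ∈ J, a ∈ B := by
    intro a; simp [Finset.mem_sup]
  obtain ⟨B0, hB0⟩ := hne
  obtain ⟨b0, hb0⟩ := P.nonempty_of_mem_parts (hJ hB0)
  have hnot : J.sup id ∉ P.parts \ J := by
    intro h
    rw [Finset.mem_sdiff] at h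
    have : J.sup id = B0 := P.eq_of_mem_parts h.1 (hJ hB0) ((hmem b0).2 ⟨B0, hB0, hb0⟩) hb0
    exact h.2 (this ▸ hB0)
  refine ⟨Finpartition.ofExistsUnique (insert (J.sup id) (P.parts \ J)) ?_ ?_ ?_, ?_, ?_⟩
  · intro p hp
    rcases Finset.mem_insert.1 hp with h | h
    · subst h
      intro a ha
      obtain ⟨B, hB, haB⟩ := (hmem a).1 ha
      exact P.le (hJ hB) haB
    · exact P.le (Finset.mem_sdiff.1 h).1
  · intro a ha
    obtain ⟨B, hB, haB⟩ := P.exists_mem ha
    by_cases hBJ : B ∈ J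
    · refine ⟨J.sup id, ⟨Finset.mem_insert_self _ _, (hmem a).2 ⟨B, hBJ, haB⟩⟩, ?_⟩
      rintro t ⟨ht, hat⟩
      rcases Finset.mem_insert.1 ht with h | h
      · exact h
      · rw [Finset.mem_sdiff] at h
        exact absurd (P.eq_of_mem_parts h.1 hB hat haB ▸ hBJ) h.2
    · refine ⟨B, ⟨Finset.mem_insert_of_mem (Finset.mem_sdiff.2 ⟨hB, hBJ⟩), haB⟩, ?_⟩
      rintro t ⟨ht, hat⟩
      rcases Finset.mem_insert.1 ht with h | h
      · subst h
        obtain ⟨B', hB', haB'⟩ := (hmem a).1 hat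
        exact absurd (P.eq_of_mem_parts (hJ hB') hB haB' haB ▸ hB') hBJ
      · exact P.eq_of_mem_parts (Finset.mem_sdiff.1 h).1 hB hat haB
  · intro h
    rcases Finset.mem_insert.1 h with h | h
    · have : b0 ∈ (∅ : Finset V) := by rw [h]; exact (hmem b0).2 ⟨B0, hB0, hb0⟩
      simp at this
    · exact (P.nonempty_of_mem_parts (Finset.mem_sdiff.1 h).1).ne_empty rfl
  · unfold cost
    rw [Finpartition.ofExistsUnique_parts, Finset.sum_insert hnot,
      ← Finset.sum_sdiff hJ]
    ring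
  · rw [Finpartition.ofExistsUnique_parts, Finset.card_insert_of_notMem hnot,
      Finset.card_sdiff_of_subset hJ]
    have := Finset.card_le_card hJ
    omega

end merge

section split

variable {V E : Type*} [DecidableEq V] [DecidableEq E]

/-- splitting one block `C` of `Q` along the traces of a family of blocks covering `C.image t` -/
theorem exists_split {s : Finset E} (Q : Finpartition s) (C : Finset E) (hC : C ∈ Q.parts)
    (t : E → V) (J : Finset (Finset V)) (hdisj : ∀ B ∈ J, ∀ B' ∈ J, ∀ a, a ∈ B → a ∈ B' → B = B')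
    (hcov : ∀ e ∈ C, ∃ B ∈ J, t e ∈ B) (hmeet : ∀ B ∈ J, ∃ e ∈ C, t e ∈ B)
    (σ : Finset E → ℝ) (lam : ℝ) :
    ∃ Q' : Finpartition s,
      cost σ lam Q' = cost σ lam Q - (σ C - lam) +
        ∑ B ∈ J, (σ (C.filter fun e => t e ∈ B) - lam) := by
  classical
  set F : Finset V → Finset E := fun B => C.filter fun e => t e ∈ B with hF
  have hinj : Set.InjOn F (J : Set (Finset V)) := by
    intro B hB B' hB' h
    obtain ⟨e, he, hte⟩ := hmeet B hB
    have h1 : e ∈ F B := Finset.mem_filter.2 ⟨he, hte⟩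
    rw [h] at h1
    exact hdisj B hB B' hB' (t e) hte (Finset.mem_filter.1 h1).2
  have hdis : Disjoint (Q.parts.erase C) (J.image F) := by
    rw [Finset.disjoint_left]
    intro D hD hD'
    obtain ⟨B, hB, rfl⟩ := Finset.mem_image.1 hD'
    obtain ⟨hne, hDQ⟩ := Finset.mem_erase.1 hD
    obtain ⟨e, he, hte⟩ := hmeet B hB
    exact hne (Q.eq_of_mem_parts hDQ hC (Finset.mem_filter.2 ⟨he, hte⟩) he)
  refine ⟨Finpartition.ofExistsUnique (Q.parts.erase C ∪ J.image F) ?_ ?_ ?_, ?_⟩
  · intro p hp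
    rcases Finset.mem_union.1 hp with h | h
    · exact Q.le (Finset.mem_erase.1 h).2
    · obtain ⟨B, hB, rfl⟩ := Finset.mem_image.1 h
      exact (Finset.filter_subset _ _).trans (Q.le hC)
  · intro a ha
    obtain ⟨D, hD, haD⟩ := Q.exists_mem ha
    by_cases hDC : D = C
    · subst hDC
      obtain ⟨B, hB, htB⟩ := hcov a haD
      refine ⟨F B, ⟨Finset.mem_union_right _ (Finset.mem_image_of_mem _ hB),
        Finset.mem_filter.2 ⟨haD, htB⟩⟩, ?_⟩
      rintro x ⟨hx, hax⟩
      rcases Finset.mem_union.1 hx with h | h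
      · obtain ⟨hne, hxQ⟩ := Finset.mem_erase.1 h
        exact absurd (Q.eq_of_mem_parts hxQ hD hax haD) hne
      · obtain ⟨B', hB', rfl⟩ := Finset.mem_image.1 h
        have := hdisj B' hB' B hB (t a) (Finset.mem_filter.1 hax).2 htB
        rw [this]
    · refine ⟨D, ⟨Finset.mem_union_left _ (Finset.mem_erase.2 ⟨hDC, hD⟩), haD⟩, ?_⟩
      rintro x ⟨hx, hax⟩
      rcases Finset.mem_union.1 hx with h | h
      · exact Q.eq_of_mem_parts (Finset.mem_erase.1 h).2 hD hax haD
      · obtain ⟨B', hB', rfl⟩ := Finset.mem_image.1 h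
        exact absurd (Q.eq_of_mem_parts hD hC haD (Finset.mem_filter.1 hax).1) hDC
  · intro h
    rcases Finset.mem_union.1 h with h | h
    · exact (Q.nonempty_of_mem_parts (Finset.mem_erase.1 h).2).ne_empty rfl
    · obtain ⟨B, hB, hBe⟩ := Finset.mem_image.1 h
      obtain ⟨e, he, hte⟩ := hmeet B hB
      have : e ∈ F B := Finset.mem_filter.2 ⟨he, hte⟩
      rw [hBe] at this
      simp at this
  · unfold cost
    rw [Finpartition.ofExistsUnique_parts, Finset.sum_union hdis, Finset.sum_image hinj,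
      ← Finset.sum_erase_add _ _ hC]
    ring

/-- repeated submodularity -/
theorem cross (ρ : Finset V → ℝ) (hsub : ∀ A B, ρ (A ∪ B) + ρ (A ∩ B) ≤ ρ A + ρ B)
    (A : Finset V) (J : Finset (Finset V))
    (hdisj : ∀ B ∈ J, ∀ B' ∈ J, B ≠ B' → Disjoint B B') :
    ρ (A ∪ J.sup id) + ∑ B ∈ J, ρ (A ∩ B) ≤ ρ A + ∑ B ∈ J, ρ B := by
  classical
  induction J using Finset.induction_on with
  | empty => simp
  | insert B J hB ih =>
    rw [Finset.sup_insert, Finset.sum_insert hB, Finset.sum_insert hB]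
    have ih' := ih (fun B1 h1 B2 h2 => hdisj B1 (Finset.mem_insert_of_mem h1) B2
      (Finset.mem_insert_of_mem h2))
    have h1 := hsub (A ∪ J.sup id) B
    have h2 : (A ∪ J.sup id) ∪ B = A ∪ (id B ⊔ J.sup id) := by
      ext a; simp only [Finset.mem_union, id, Finset.sup_eq_union]; tauto
    have h3 : (A ∪ J.sup id) ∩ B = A ∩ B := by
      ext a
      simp only [Finset.mem_inter, Finset.mem_union]
      constructor
      · rintro ⟨h | h, hb⟩
        · exact ⟨h, hb⟩
        · exfalso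
          rw [Finset.mem_sup] at h
          obtain ⟨B', hB', ha⟩ := h
          have := hdisj B (Finset.mem_insert_self _ _) B' (Finset.mem_insert_of_mem hB')
            (by rintro rfl; exact hB hB')
          exact Finset.disjoint_left.1 this hb ha
      · rintro ⟨h, hb⟩; exact ⟨Or.inl h, hb⟩
    rw [h2, h3] at h1
    linarith

/-- uncrossing: every block of the optimal `Q` is mapped into one block of the optimal `P` with
fewest blocks -/
theorem uncross {w : Finset V} (ρ : Finset V → ℝ)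
    (hsub : ∀ A B, ρ (A ∪ B) + ρ (A ∩ B) ≤ ρ A + ρ B)
    (lam : ℝ) (P : Finpartition w)
    (hPm : ∀ P' : Finpartition w, cost ρ lam P' ≤ cost ρ lam P → P.parts.card ≤ P'.parts.card)
    (s : Finset E) (t : E → V) (ht : ∀ e ∈ s, t e ∈ w) (σ : Finset E → ℝ)
    (hσ : ∀ B ⊆ s, σ B = ρ (B.image t)) (Q : Finpartition s)
    (hQ : ∀ Q' : Finpartition s, cost σ lam Q ≤ cost σ lam Q') (C : Finset E)
    (hC : C ∈ Q.parts) : ∃ B ∈ P.parts, C.image t ⊆ B := by
  classical
  set J : Finset (Finset V) := P.parts.filter fun B => ∃ e ∈ C, t e ∈ B with hJdef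
  have hJP : J ⊆ P.parts := Finset.filter_subset _ _
  have hCs : C ⊆ s := Q.le hC
  obtain ⟨e0, he0⟩ := Q.nonempty_of_mem_parts hC
  have hcov : ∀ e ∈ C, ∃ B ∈ J, t e ∈ B := by
    intro e he
    obtain ⟨B, hB, htB⟩ := P.exists_mem (ht e (hCs he))
    exact ⟨B, Finset.mem_filter.2 ⟨hB, e, he, htB⟩, htB⟩
  have hmeet : ∀ B ∈ J, ∃ e ∈ C, t e ∈ B := fun B hB => (Finset.mem_filter.1 hB).2
  have hJne : J.Nonempty := by
    obtain ⟨B, hB, _⟩ := hcov e0 he0
    exact ⟨B, hB⟩
  have hdisj : ∀ B ∈ J, ∀ B' ∈ J, ∀ a, a ∈ B → a ∈ B' → B = B' :=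
    fun B hB B' hB' a h h' => P.eq_of_mem_parts (hJP hB) (hJP hB') h h'
  have hdisj2 : ∀ B ∈ J, ∀ B' ∈ J, B ≠ B' → Disjoint B B' := by
    intro B hB B' hB' hne
    rw [Finset.disjoint_left]
    intro a h h'
    exact hne (hdisj B hB B' hB' a h h')
  obtain ⟨P', hP'c, hP'n⟩ := exists_merge P J hJP hJne ρ lam
  obtain ⟨Q', hQ'⟩ := exists_split Q C hC t J hdisj hcov hmeet σ lam
  have h1 := hQ Q'
  rw [hQ'] at h1
  have h2 := cross ρ hsub (C.image t) J hdisj2
  have h3 : C.image t ∪ J.sup id = J.sup id := by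
    apply Finset.union_eq_right.2
    intro a ha
    obtain ⟨e, he, rfl⟩ := Finset.mem_image.1 ha
    obtain ⟨B, hB, htB⟩ := hcov e he
    exact Finset.mem_sup.2 ⟨B, hB, htB⟩
  rw [h3] at h2
  have h4 : ∀ B ∈ J, σ (C.filter fun e => t e ∈ B) = ρ (C.image t ∩ B) := by
    intro B _
    rw [hσ _ ((Finset.filter_subset _ _).trans hCs)]
    congr 1
    ext a
    simp only [Finset.mem_image, Finset.mem_filter, Finset.mem_inter]
    constructor
    · rintro ⟨e, ⟨he, hb⟩, rfl⟩; exact ⟨⟨e, he, rfl⟩, hb⟩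
    · rintro ⟨⟨e, he, rfl⟩, hb⟩; exact ⟨e, ⟨he, hb⟩, rfl⟩
  have h5 : ∑ B ∈ J, (σ (C.filter fun e => t e ∈ B) - lam) =
      ∑ B ∈ J, ρ (C.image t ∩ B) - lam * J.card := by
    rw [Finset.sum_sub_distrib, Finset.sum_congr rfl h4]
    simp [mul_comm]
  have h6 : ∑ B ∈ J, (ρ B - lam) = ∑ B ∈ J, ρ B - lam * J.card := by
    rw [Finset.sum_sub_distrib]; simp [mul_comm]
  rw [h5, hσ C hCs] at h1
  rw [h6] at hP'c
  have h7 : cost ρ lam P' ≤ cost ρ lam P := by
    rw [hP'c]; linarith
  have h8 := hPm P' h7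
  have h9 : J.card ≤ 1 := by omega
  obtain ⟨B, hB, _⟩ := hcov e0 he0
  refine ⟨B, hJP hB, ?_⟩
  intro a ha
  obtain ⟨e, he, rfl⟩ := Finset.mem_image.1 ha
  obtain ⟨B', hB', htB'⟩ := hcov e he
  have := Finset.card_le_one.1 h9 B hB B' hB'
  rwa [this]

end split

/-- THE STAR INEQUALITY -/
theorem star {V E ι : Type*} [Fintype V] [Fintype E] [Fintype ι] [DecidableEq V] [DecidableEq E]
    [DecidableEq ι] (tl hd : E → V) (lab : E → ι) (ρ : Finset V → ℝ) (L : ℝ) (hL : 0 ≤ L)
    (h0 : ρ ∅ = 0) (hsub : ∀ A B, ρ (A ∪ B) + ρ (A ∩ B) ≤ ρ A + ρ B)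
    (hmono : ∀ A B, A ⊆ B → ρ A ≤ ρ B) (h1 : ∀ a, ρ {a} = L)
    (hinv : ∀ (i : ι) (B : Finset E), (∀ e ∈ B, lab e = i) → ρ (B.image tl) = ρ (B.image hd))
    (κ : ℕ)
    (hκ : ∀ (P : Finpartition (Finset.univ : Finset V))
      (Q : ∀ i : ι, Finpartition (Finset.univ.filter fun e => lab e = i)),
      (∀ i, ∀ C ∈ (Q i).parts, ∃ B ∈ P.parts, C.image tl ⊆ B) →
      (∀ i, ∀ C ∈ (Q i).parts, ∃ B ∈ P.parts, C.image hd ⊆ B) →
      P.parts.card + κ ≤ ∑ i, (Q i).parts.card + 1) :
    ρ Finset.univ + ((κ : ℝ) - 1) * L ≤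
      ∑ i, ρ ((Finset.univ.filter fun e => lab e = i).image tl) := by
  classical
  -- nonnegativity and subadditivity
  have hnn : ∀ A, 0 ≤ ρ A := fun A => by
    have := hmono ∅ A (Finset.empty_subset _); rwa [h0] at this
  have hadd : ∀ A B, ρ (A ∪ B) ≤ ρ A + ρ B := fun A B => by
    have := hsub A B; have := hnn (A ∩ B); linarith
  have hLne : ∀ B : Finset V, B.Nonempty → L ≤ ρ B := by
    rintro B ⟨a, ha⟩
    rw [← h1 a]
    exact hmono _ _ (Finset.singleton_subset_iff.2 ha)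
  -- the set functions on edges
  set σ : Finset E → ℝ := fun B => ρ (B.image tl) with hσ
  have hσ0 : σ ∅ = 0 := by simp [hσ, h0]
  have hσadd : ∀ A B, σ (A ∪ B) ≤ σ A + σ B := by
    intro A B
    simp only [hσ, Finset.image_union]
    exact hadd _ _
  set s : ι → Finset E := fun i => Finset.univ.filter fun e => lab e = i with hs
  have hσL : ∀ i, ∀ B ⊆ s i, B.Nonempty → L ≤ σ B := by
    intro i B _ hB
    exact hLne _ (hB.image tl)
  have hσ1 : ∀ i, ∀ e ∈ s i, σ {e} = L := by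
    intro i e _
    simp [hσ, h1]
  -- main count at one lambda
  have main : ∀ lam : ℝ, ∃ (P : Finpartition (Finset.univ : Finset V))
      (Q : ∀ i : ι, Finpartition (s i)),
      (∀ P' : Finpartition (Finset.univ : Finset V), cost ρ lam P ≤ cost ρ lam P') ∧
      (∀ i, ∀ Q' : Finpartition (s i), cost σ lam (Q i) ≤ cost σ lam Q') ∧
      P.parts.card + κ ≤ ∑ i, (Q i).parts.card + 1 := by
    intro lam
    obtain ⟨P, hP, hPm⟩ := exists_opt ρ lam (Finset.univ : Finset V)
    choose Q hQ _ using fun i => exists_opt σ lam (s i)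
    refine ⟨P, Q, hP, hQ, hκ P Q ?_ ?_⟩
    · intro i C hC
      exact uncross ρ hsub lam P hPm (s i) tl (fun _ _ => Finset.mem_univ _) σ
        (fun B _ => rfl) (Q i) (hQ i) C hC
    · intro i C hC
      exact uncross ρ hsub lam P hPm (s i) hd (fun _ _ => Finset.mem_univ _) σ
        (fun B hB => hinv i B (fun e he => (Finset.mem_filter.1 (hB he)).2)) (Q i) (hQ i) C hC
  -- telescoping for every M
  have hM : ∀ M : ℕ, 0 < M → (((κ : ℝ) - 1) * L - (∑ i, σ (s i) - ρ Finset.univ)) * M ≤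
      L * (Fintype.card V + κ) := by
    intro M hMpos
    choose P Q hP hQ hc using fun t : ℕ => main (t * (L / M))
    obtain ⟨hV, _⟩ := telescope ρ L Finset.univ h0 hadd (fun B _ hB => hLne B hB)
      (fun a _ => h1 a) M hMpos P hP
    have hE : ∀ i, (L / M) * ∑ t ∈ Finset.range M, (((Q t) i).parts.card : ℝ) ≤ σ (s i) := by
      intro i
      exact (telescope σ L (s i) hσ0 hσadd (hσL i) (hσ1 i) M hMpos (fun t => Q t i)
        (fun t => hQ t i)).2
    have hMr : (0 : ℝ) < M := by exact_mod_cast hMpos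
    have hLM : 0 ≤ L / M := by positivity
    have hsumE : (L / M) * ∑ t ∈ Finset.range M, ∑ i, (((Q t) i).parts.card : ℝ) ≤
        ∑ i, σ (s i) := by
      rw [Finset.sum_comm, Finset.mul_sum]
      exact Finset.sum_le_sum fun i _ => hE i
    -- counts
    have hcR : ∀ t, ((P t).parts.card : ℝ) + κ - 1 ≤ ∑ i, (((Q t) i).parts.card : ℝ) := by
      intro t
      have := hc t
      have h2 : (((P t).parts.card + κ : ℕ) : ℝ) ≤ ((∑ i, ((Q t) i).parts.card + 1 : ℕ) : ℝ) := by
        exact_mod_cast this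
      push_cast at h2
      linarith
    have hcardV : ∀ t, ((P t).parts.card : ℝ) ≤ Fintype.card V := by
      intro t
      have := (P t).card_parts_le_card
      rw [Finset.card_univ] at this
      exact_mod_cast this
    -- shift
    have hshift : ∑ t ∈ Finset.range M, ((P (t + 1)).parts.card : ℝ) =
        ∑ t ∈ Finset.range M, ((P t).parts.card : ℝ) + (P M).parts.card - (P 0).parts.card := by
      have h2 := Finset.sum_range_succ (fun t => ((P t).parts.card : ℝ)) M
      have h3 := Finset.sum_range_succ' (fun t => ((P t).parts.card : ℝ)) M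
      linarith
    have hlow : ∑ t ∈ Finset.range M, ((P t).parts.card : ℝ) + M * ((κ : ℝ) - 1) ≤
        ∑ t ∈ Finset.range M, ∑ i, (((Q t) i).parts.card : ℝ) := by
      have : ∑ t ∈ Finset.range M, (((P t).parts.card : ℝ) + κ - 1) ≤
          ∑ t ∈ Finset.range M, ∑ i, (((Q t) i).parts.card : ℝ) :=
        Finset.sum_le_sum fun t _ => hcR t
      have h2 : ∑ t ∈ Finset.range M, (((P t).parts.card : ℝ) + κ - 1) =
          ∑ t ∈ Finset.range M, ((P t).parts.card : ℝ) + M * ((κ : ℝ) - 1) := by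
        have h3 : ∀ t ∈ Finset.range M, (((P t).parts.card : ℝ) + κ - 1) =
            ((P t).parts.card : ℝ) + ((κ : ℝ) - 1) := fun t _ => by ring
        rw [Finset.sum_congr rfl h3, Finset.sum_add_distrib, Finset.sum_const, Finset.card_range,
          nsmul_eq_mul]
      linarith
    have hP0 : (0 : ℝ) ≤ ((P 0).parts.card : ℝ) := by positivity
    have hPM := hcardV M
    have e1 : (L / M) * (∑ t ∈ Finset.range M, ((P (t + 1)).parts.card : ℝ)) ≤
        (L / M) * (∑ t ∈ Finset.range M, ∑ i, (((Q t) i).parts.card : ℝ) -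
          M * ((κ : ℝ) - 1) + Fintype.card V) := by
      apply mul_le_mul_of_nonneg_left _ hLM
      rw [hshift]; linarith
    have e2 : ρ Finset.univ ≤ ∑ i, σ (s i) - (L / M) * (M * ((κ : ℝ) - 1)) +
        (L / M) * Fintype.card V := by
      have : (L / M) * (∑ t ∈ Finset.range M, ∑ i, (((Q t) i).parts.card : ℝ) -
          M * ((κ : ℝ) - 1) + Fintype.card V) =
          (L / M) * (∑ t ∈ Finset.range M, ∑ i, (((Q t) i).parts.card : ℝ)) -
          (L / M) * (M * ((κ : ℝ) - 1)) + (L / M) * Fintype.card V := by ring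
      linarith
    have e3 : (L / M) * (M * ((κ : ℝ) - 1)) = L * ((κ : ℝ) - 1) := by
      have : (M : ℝ) ≠ 0 := hMr.ne'
      field_simp
    rw [e3] at e2
    have e4 : (((κ : ℝ) - 1) * L - (∑ i, σ (s i) - ρ Finset.univ)) ≤
        (L / M) * Fintype.card V := by linarith
    have e5 : (((κ : ℝ) - 1) * L - (∑ i, σ (s i) - ρ Finset.univ)) * M ≤
        (L / M) * Fintype.card V * M := mul_le_mul_of_nonneg_right e4 hMr.le
    have e6 : (L / M) * Fintype.card V * M = L * Fintype.card V := by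
      have : (M : ℝ) ≠ 0 := hMr.ne'
      field_simp
    rw [e6] at e5
    have e7 : 0 ≤ L * (κ : ℝ) := by positivity
    linarith [mul_add L (Fintype.card V : ℝ) (κ : ℝ)]
  -- let M tend to infinity
  by_contra hcon
  push Not at hcon
  have hpos : 0 < ((κ : ℝ) - 1) * L - (∑ i, σ (s i) - ρ Finset.univ) := by
    have : ∑ i, ρ ((Finset.univ.filter fun e => lab e = i).image tl) = ∑ i, σ (s i) := rfl
    rw [this] at hcon
    linarith
  obtain ⟨M, hMM⟩ := exists_nat_gt
    (L * (Fintype.card V + κ) / (((κ : ℝ) - 1) * L - (∑ i, σ (s i) - ρ Finset.univ)))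
  have hMpos : 0 < M := by
    have h2 : (0 : ℝ) ≤
        L * (Fintype.card V + κ) / (((κ : ℝ) - 1) * L - (∑ i, σ (s i) - ρ Finset.univ)) := by
      positivity
    have : (0 : ℝ) < M := lt_of_le_of_lt h2 hMM
    exact_mod_cast this
  have h2 := hM M hMpos
  rw [div_lt_iff₀ hpos] at hMM
  linarith [mul_comm (M : ℝ) (((κ : ℝ) - 1) * L - (∑ i, σ (s i) - ρ Finset.univ))]

end H1.SAE
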